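import Pool.Agent.N561.AX.Stm
import Pool.Agent.TH563.V.KerV
import Pool.Agent.TH563.Z.FinalX

/-!
# The expansion of the lower half of the kernel near `(0, i)` (helper644 for helper561, AX/3)

`kerL ε N - k0 N` is exponentially small against `exp (N Re sg)` near `(0, i)` (`FDZ`), and the two
potentials `s` (of `SDZ`) and `sg` have the same real part (growth rates of `kerL` and `k0`) and the
same value at `(0, i)`, hence they agree.
-/

set_option autoImplicit false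
set_option maxHeartbeats 1000000

namespace Pool.Agent.N644.AX

open Finset Filter Topology Metric
open Pool.Agent.W711.HT hiding XX
open Pool.Agent.TH563.V (KXG S_KERV)
open Pool.Agent.TH563.Z (Adm SDZ KDZ FDZ KXZ kerL cut Rz AA dz kxz S_SDZ S_KXCZ)
open Pool.Agent.W719.AX (UX)
open Pool.Agent.N561
open Pool.Agent.N561.AX
open scoped Real

/-- a holomorphic function with vanishing real part has derivative zero -/
lemma deriv_zero_of_re {f : ℂ → ℂ} {U : Set ℂ} (hU : IsOpen U) (hf : DifferentiableOn ℂ f U)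
    (hre : ∀ z ∈ U, (f z).re = 0) {z : ℂ} (hz : z ∈ U) : deriv f z = 0 := by
  have hd : HasDerivAt f (deriv f z) z := (hf.differentiableAt (hU.mem_nhds hz)).hasDerivAt
  have key : ∀ w : ℂ, (deriv f z * w).re = 0 := by
    intro w
    have h1 : HasDerivAt (fun t : ℝ => z + (t : ℂ) * w) w 0 := by
      have := (Complex.ofRealCLM.hasDerivAt (x := (0 : ℝ))).mul_const w
      simpa using this.const_add z
    have h2 : HasDerivAt (fun t : ℝ => f (z + (t : ℂ) * w)) (deriv f z * w) 0 := by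
      have h3 : HasDerivAt f (deriv f z) (z + ((0 : ℝ) : ℂ) * w) := by simpa using hd
      exact h3.comp_of_eq (0 : ℝ) h1 rfl
    have h4 : HasDerivAt (fun t : ℝ => (f (z + (t : ℂ) * w)).re) (deriv f z * w).re 0 := by
      exact (Complex.reCLM.hasFDerivAt.comp_hasDerivAt (0 : ℝ) h2)
    have h5 : (fun t : ℝ => (f (z + (t : ℂ) * w)).re) =ᶠ[𝓝 0] fun _ => (0 : ℝ) := by
      have hc : ContinuousAt (fun t : ℝ => z + (t : ℂ) * w) 0 := h1.continuousAt
      have : ∀ᶠ t : ℝ in 𝓝 0, z + (t : ℂ) * w ∈ U := by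
        apply hc.eventually_mem
        simpa using hU.mem_nhds hz
      filter_upwards [this] with t ht
      exact hre _ ht
    have h6 := (hasDerivAt_const (0 : ℝ) (0 : ℝ)).congr_of_eventuallyEq h5
    exact h4.unique h6
  have h1 := key 1
  have h2 := key Complex.I
  apply Complex.ext
  · simpa using h1
  · simpa using h2

lemma isOpen_Rc (a b : ℝ) : IsOpen (Rc a b) := by
  have h1 : IsOpen {z : ℂ | |z.re| < a} :=
    isOpen_lt (continuous_abs.comp Complex.continuous_re) continuous_const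
  have h2 : IsOpen {z : ℂ | |z.im| < b} :=
    isOpen_lt (continuous_abs.comp Complex.continuous_im) continuous_const
  exact h1.inter h2

lemma convex_Rc (a b : ℝ) : Convex ℝ (Rc a b) := by
  have h : Rc a b = Complex.re ⁻¹' (ball (0 : ℝ) a) ∩ Complex.im ⁻¹' (ball (0 : ℝ) b) := by
    ext z
    simp [Rc]
  rw [h]
  exact ((convex_ball (0 : ℝ) a).linear_preimage Complex.reLm).inter
    ((convex_ball (0 : ℝ) b).linear_preimage Complex.imLm)

/-- a holomorphic function on a convex open set with vanishing real part is constant -/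
lemma const_of_re {f : ℂ → ℂ} {U : Set ℂ} (hU : IsOpen U) (hc : Convex ℝ U)
    (hf : DifferentiableOn ℂ f U) (hre : ∀ z ∈ U, (f z).re = 0) {z w : ℂ} (hz : z ∈ U)
    (hw : w ∈ U) : f z = f w :=
  hU.is_const_of_deriv_eq_zero hc.isPreconnected hf
    (fun x hx => deriv_zero_of_re hU hf hre hx) hz hw

lemma adm_one : Adm 1 := by
  refine ⟨one_pos, ?_⟩
  have h1 := Real.cosh_le_exp_half_sq (1 / 2)
  have h2 : Real.exp ((1 / 2) ^ 2 / 2) ≤ Real.exp (Real.log 2) := by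
    apply Real.exp_le_exp.2
    have := Real.log_two_gt_d9
    norm_num
    linarith
  rw [Real.exp_log (by norm_num)] at h2
  exact h1.trans h2

lemma one_mem_GG : ((1 : ℝ) : ℂ) * Complex.I ∈ GG := by
  unfold GG
  simp only [Set.mem_ofPred_eq, Complex.ofReal_one, one_mul, Complex.I_re, Complex.I_im, abs_zero,
    Real.cos_zero]
  refine ⟨by norm_num, by norm_num, by norm_num, ?_⟩
  have := Real.cosh_pos 1
  linarith

lemma dz_one : dz 1 < 1 / 2 := by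
  unfold dz
  have hπ := Real.pi_pos
  have hc := Real.one_le_cosh 1
  have h1 : Real.arccos ((1 - Real.cosh 1) / (3 + Real.cosh 1)) < π := by
    apply lt_of_le_of_ne (Real.arccos_le_pi _)
    intro h
    rw [Real.arccos_eq_pi, div_le_iff₀ (by linarith)] at h
    linarith
  rw [div_lt_iff₀ (by positivity)]
  linarith

/-- the value at the base point is real -/
lemma sg_im (hSF : S_SF) : (sg 0 (((1 : ℝ) : ℂ) * Complex.I)).im = 0 := by
  obtain ⟨h1, -, -, h4, -⟩ := hSF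
  rw [h4 _ one_mem_GG]
  unfold sf
  have hg : ∀ t : ℝ, (gdi (t * (((1 : ℝ) : ℂ) * Complex.I) / 2)).re = 0 := by
    intro t
    have hre : ((t : ℂ) * (((1 : ℝ) : ℂ) * Complex.I) / 2).re = 0 := by
      rw [show (t : ℂ) * (((1 : ℝ) : ℂ) * Complex.I) / 2 = ((t / 2 : ℝ) : ℂ) * Complex.I by
        push_cast; ring]
      simp
    have := (h1 _ (by rw [hre]; simpa using Real.pi_pos)).2.1
    rw [this, hre]
    simp
  have hcont : ContinuousOn (fun t : ℝ => gdi (t * (((1 : ℝ) : ℂ) * Complex.I) / 2))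
      (Set.uIcc 0 1) := by
    intro t _
    have hre : ((t : ℂ) * (((1 : ℝ) : ℂ) * Complex.I) / 2).re = 0 := by
      rw [show (t : ℂ) * (((1 : ℝ) : ℂ) * Complex.I) / 2 = ((t / 2 : ℝ) : ℂ) * Complex.I by
        push_cast; ring]
      simp
    have h2 := (h1 ((t : ℂ) * (((1 : ℝ) : ℂ) * Complex.I) / 2)
      (by rw [hre]; simpa using Real.pi_pos)).1.continuousAt
    apply ContinuousAt.continuousWithinAt
    exact ContinuousAt.comp (f := fun t : ℝ => (t : ℂ) * (((1 : ℝ) : ℂ) * Complex.I) / 2) h2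
      (by fun_prop)
  have hint := hcont.intervalIntegrable (μ := MeasureTheory.volume)
  have hzero : (∫ t in (0:ℝ)..1, gdi (t * (((1 : ℝ) : ℂ) * Complex.I) / 2)).re = 0 := by
    have := Complex.reCLM.intervalIntegral_comp_comm hint
    simp only [Complex.reCLM_apply] at this
    rw [← this]
    simp only [hg]
    simp
  rw [Complex.sub_im, Complex.ofReal_im]
  rw [show ((1 : ℝ) : ℂ) * Complex.I / π * (∫ t in (0:ℝ)..1,
      gdi (t * (((1 : ℝ) : ℂ) * Complex.I) / 2)) = ((1 / π : ℝ) : ℂ) * (Complex.I *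
      (∫ t in (0:ℝ)..1, gdi (t * (((1 : ℝ) : ℂ) * Complex.I) / 2))) by push_cast; ring]
  rw [Complex.im_ofReal_mul, Complex.mul_im, hzero, Complex.I_re]
  simp

/-- the terms between `N / 2` and `(1 / 2 + ε) N` -/
lemma diff_bound {ε : ℝ} (hε : 0 < ε) (hε1 : ε < 1 / 4) (hF : FDZ 1 ε) :
    ∃ κ τ : ℝ, 0 < κ ∧ 0 < τ ∧ ∀ᶠ N : ℕ in atTop, ∀ x y x' y' : ℝ, |x| ≤ π → |y| ≤ τ → |x'| ≤ π →
      |y' - 1| ≤ τ → ‖kerL ε N (x + y * Complex.I) (x' + y' * Complex.I) -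
        k0 N (x + y * Complex.I) (x' + y' * Complex.I)‖ ≤ N * Real.exp (N * (AA 1 - κ)) := by
  obtain ⟨κ, hκ, τ, hτ, hev⟩ := hF (1 / 2 - dz 1) (by linarith [dz_one])
  refine ⟨κ, τ, hκ, hτ, ?_⟩
  obtain ⟨N₀, hN₀⟩ := exists_nat_ge (1 / (2 * ε))
  filter_upwards [hev, eventually_ge_atTop (max N₀ 4)] with N hN hNN x y x' y' hx hy hx' hy'
  have hN4 : (4 : ℝ) ≤ N := by exact_mod_cast (le_max_right _ _).trans hNN
  have hNe : 1 / (2 * ε) ≤ N := hN₀.trans (by exact_mod_cast (le_max_left _ _).trans hNN)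
  have hcut1 : (N + 1) / 2 ≤ cut ε N := by
    unfold cut
    have h1 : (1 / 2 + ε) * (N : ℝ) ≤ (⌈(1 / 2 + ε) * (N : ℝ)⌉₊ : ℝ) := Nat.le_ceil _
    have h2 : 1 / 2 ≤ ε * N := by
      rw [div_le_iff₀ (by positivity)] at hNe
      linarith
    have h3 : ((N : ℝ) + 1) / 2 ≤ (⌈(1 / 2 + ε) * (N : ℝ)⌉₊ : ℝ) := by linarith
    have h4 : N + 1 ≤ 2 * ⌈(1 / 2 + ε) * (N : ℝ)⌉₊ := by
      have : ((N + 1 : ℕ) : ℝ) ≤ ((2 * ⌈(1 / 2 + ε) * (N : ℝ)⌉₊ : ℕ) : ℝ) := by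
        push_cast; linarith
      exact_mod_cast this
    omega
  have hcut2 : cut ε N ≤ N := by
    unfold cut
    rw [Nat.ceil_le]
    nlinarith
  have hsub : kerL ε N (x + y * Complex.I) (x' + y' * Complex.I) -
      k0 N (x + y * Complex.I) (x' + y' * Complex.I) =
      ∑ d ∈ Ico ((N + 1) / 2) (cut ε N), Rp N d (x + y * Complex.I) *
        Rp N d (x' + y' * Complex.I) / (Sd N d : ℂ) ^ 4 := by
    unfold kerL k0
    rw [Finset.sum_Ico_eq_sub _ hcut1]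
  rw [hsub]
  have hterm : ∀ d ∈ Ico ((N + 1) / 2) (cut ε N), ‖Rp N d (x + y * Complex.I) *
      Rp N d (x' + y' * Complex.I) / (Sd N d : ℂ) ^ 4‖ ≤ Real.exp (N * (AA 1 - κ)) := by
    intro d hd
    rw [mem_Ico] at hd
    have hd2 : (N : ℝ) ≤ 2 * d := by
      have : N ≤ 2 * d := by omega
      exact_mod_cast this
    have hdN : (1 : ℝ) / 2 ≤ (d : ℝ) / N := by
      rw [div_le_div_iff₀ (by norm_num) (by linarith)]
      linarith
    have h1 := hN d hd.2 (by rw [abs_of_nonneg (by linarith [dz_one])]; linarith) x y x' y' hx hy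
      hx' hy'
    rw [norm_div, norm_mul, norm_pow, Complex.norm_real, Real.norm_eq_abs]
    have h2 : |Sd N d| ^ 4 = Sd N d ^ 4 := by
      rw [show (4 : ℕ) = 2 * 2 from rfl, pow_mul, pow_mul, sq_abs]
    rw [h2]
    apply div_le_of_le_mul₀ (by positivity) (Real.exp_pos _).le
    rw [mul_comm (Real.exp _)]
    exact h1
  calc ‖∑ d ∈ Ico ((N + 1) / 2) (cut ε N), Rp N d (x + y * Complex.I) *
        Rp N d (x' + y' * Complex.I) / (Sd N d : ℂ) ^ 4‖
      ≤ ∑ d ∈ Ico ((N + 1) / 2) (cut ε N), Real.exp (N * (AA 1 - κ)) :=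
        norm_sum_le_of_le _ hterm
    _ = ((cut ε N - (N + 1) / 2 : ℕ) : ℝ) * Real.exp (N * (AA 1 - κ)) := by
        rw [Finset.sum_const, Nat.card_Ico, nsmul_eq_mul]
    _ ≤ N * Real.exp (N * (AA 1 - κ)) := by
        gcongr
        omega

/-- `N^a e^{-N c}` tends to zero, in a form with real exponents -/
lemma pow_exp_small (m : ℕ) (c : ℝ) (hc : 0 < c) :
    ∀ᶠ N : ℕ in atTop, (N : ℝ) ^ m * Real.exp (-(N * c)) ≤ 1 := by
  have h := (Real.tendsto_pow_mul_exp_neg_atTop_nhds_zero m).comp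
    (tendsto_natCast_atTop_atTop (R := ℝ) |>.atTop_mul_const hc)
  have h2 : ∀ᶠ N : ℕ in atTop, ((N : ℝ) * c) ^ m * Real.exp (-(N * c)) < c ^ m :=
    h.eventually_lt_const (by positivity)
  filter_upwards [h2] with N hN
  rw [mul_pow] at hN
  have hcm : 0 < c ^ m := by positivity
  by_contra hcon
  push Not at hcon
  have : c ^ m * 1 < c ^ m * ((N : ℝ) ^ m * Real.exp (-(N * c))) := by gcongr
  nlinarith

theorem kxb_of (hG : S_SGP) (hSF : S_SF) (hN : S_NEAR) (hSD : S_SDZ) (hKER : S_KERV)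
    (hKX : S_KXCZ) : S_KXB := by
  have hπ := Real.pi_gt_three
  refine ⟨1, one_mem_GG, ?_⟩
  obtain ⟨r, c, C, s, dl, hS⟩ := hSD 1 adm_one
  obtain ⟨ε, hFD, hker⟩ := hKER 1 adm_one r c C s dl hS
  obtain ⟨ρ, τ, ρ', τ', κ₀, hZ, -, -, -⟩ := hker 1 one_pos
  obtain ⟨ρ₂, τ₂, ρ₃, τ₃, -, -, -, -, A, hA⟩ := hKX 1 ε ρ τ ρ' τ' κ₀ c s dl adm_one hFD hZ
  obtain ⟨κ, τ₀, hκ, hτ₀, hdiff⟩ := diff_bound hZ.hε.1 hZ.hε.2 hFD
  obtain ⟨r₁, hr₁, hr₁G, hnear⟩ := hN _ one_mem_GG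
  obtain ⟨r₀, c₀, C₀, hP⟩ := hG _ one_mem_GG
  have hr := hS.hr
  have hC := hS.hC
  -- the size
  obtain ⟨v, hv, hv1, hvr, hvρ, hvτ, hvρ', hvτ', hvρ₂, hvτ₂, hvρ₃, hvτ₃, hvτ₀, hvr₁, hvr₀, hvC⟩ :
      ∃ v : ℝ, 0 < v ∧ v ≤ 1 ∧ v ≤ r ∧ v ≤ 3 * ρ ∧ v ≤ 3 * τ ∧ v ≤ 3 * ρ' ∧ v ≤ 3 * τ' ∧ v ≤ ρ₂ ∧
        v ≤ τ₂ ∧ v ≤ ρ₃ ∧ v ≤ τ₃ ∧ v ≤ τ₀ ∧ v ≤ r₁ ∧ v ≤ r₀ ∧ C * (3 * v) ≤ κ / 4 := by
    have h1 := hZ.hρ.1
    have h2 := hZ.hτ.1
    have h3 := hZ.hρ'.1
    have h4 := hZ.hτ'.1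
    have h5 := hA.hρ
    have h6 := hA.hτ
    have h7 := hA.hρ'
    have h8 := hA.hτ'
    have h9 := hP.hr.1
    have h10 := hr.1
    refine ⟨min 1 (min r (min (3 * ρ) (min (3 * τ) (min (3 * ρ') (min (3 * τ') (min ρ₂ (min τ₂
      (min ρ₃ (min τ₃ (min τ₀ (min r₁ (min r₀ (κ / 4 / (3 * C)))))))))))))), by positivity, ?_⟩
    have hm := fun (a b : ℝ) => min_le_left a b
    have hM := fun (a b : ℝ) => min_le_right a b
    have e1 : C * (3 * (κ / 4 / (3 * C))) = κ / 4 := by field_simp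
    refine ⟨?_, ?_, ?_, ?_, ?_, ?_, ?_, ?_, ?_, ?_, ?_, ?_, ?_, ?_⟩
    all_goals try
      simp only [min_le_iff, le_refl, true_or, or_true]
    have e2 : ∀ x : ℝ, x ≤ κ / 4 / (3 * C) → C * (3 * x) ≤ κ / 4 := by
      intro x hx
      rw [← e1]
      gcongr
    apply e2
    simp only [min_le_iff, le_refl, or_true]
  have hψR : ∀ ψ ∈ Rc v v, ∀ a b : ℝ, v ≤ a → v ≤ b → ψ ∈ Rc a b :=
    fun ψ hψ a b ha hb => ⟨hψ.1.trans_le ha, hψ.2.trans_le hb⟩
  have hφI : ∀ φ ∈ ball (((1 : ℝ) : ℂ) * Complex.I) v, |φ.re| < v ∧ |φ.im - 1| < v := by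
    intro φ hφ
    rw [mem_ball, dist_eq_norm] at hφ
    constructor
    · have := (Complex.abs_re_le_norm (φ - ((1 : ℝ) : ℂ) * Complex.I)).trans_lt hφ
      simpa using this
    · have := (Complex.abs_im_le_norm (φ - ((1 : ℝ) : ℂ) * Complex.I)).trans_lt hφ
      simpa using this
  have hφZ : ∀ φ ∈ ball (((1 : ℝ) : ℂ) * Complex.I) v, ∀ a b : ℝ, v ≤ a → v ≤ b →
      φ ∈ Rz 1 a b :=
    fun φ hφ a b ha hb => ⟨(hφI φ hφ).1.trans_le ha, (hφI φ hφ).2.trans_le hb⟩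
  -- the real part of the potential
  have hs : ∀ ψ ∈ Rc v v, ∀ φ ∈ ball (((1 : ℝ) : ℂ) * Complex.I) v,
      AA 1 - κ / 4 ≤ (s ψ φ).re := by
    intro ψ hψ φ hφ
    have h1 := hS.lip ψ (hψR ψ hψ r r hvr hvr) φ (hφZ φ hφ r r hvr hvr)
    have h2 : ‖ψ‖ ≤ 2 * v := by
      have h21 := hψ.1
      have h22 := hψ.2
      exact (Complex.norm_le_abs_re_add_abs_im ψ).trans (by linarith)
    have h3 : ‖φ - ((1 : ℝ) : ℂ) * Complex.I‖ ≤ v := by
      rw [mem_ball, dist_eq_norm] at hφ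
      exact hφ.le
    have h4 := Complex.abs_re_le_norm (s ψ φ - ((AA 1 : ℝ) : ℂ))
    rw [Complex.sub_re, Complex.ofReal_re] at h4
    have h5 := (abs_le.1 (h4.trans h1)).1
    have h6 : C * (‖ψ‖ + ‖φ - ((1 : ℝ) : ℂ) * Complex.I‖) ≤ C * (3 * v) := by
      gcongr
      linarith
    linarith
  -- the difference of the two kernels
  have hdiff' : ∀ᶠ N : ℕ in atTop, ∀ ψ ∈ Rc v v, ∀ φ ∈ ball (((1 : ℝ) : ℂ) * Complex.I) v,
      ‖kerL ε N ψ φ - k0 N ψ φ‖ ≤ N * Real.exp (N * (AA 1 - κ)) := by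
    filter_upwards [hdiff] with N hN ψ hψ φ hφ
    have h1 := hψ.1
    have h2 := hψ.2
    have h3 := hφI φ hφ
    have := hN ψ.re ψ.im φ.re φ.im (by linarith) (by linarith) (by linarith) (by linarith)
    rwa [Complex.re_add_im, Complex.re_add_im] at this
  -- the real parts of the potentials agree
  have hre : ∀ ψ ∈ Rc v v, ∀ φ ∈ ball (((1 : ℝ) : ℂ) * Complex.I) v,
      (s ψ φ).re - (sg ψ φ).re = 0 := by
    intro ψ hψ φ hφ
    by_contra hne
    obtain ⟨D, hD⟩ : ∃ D : ℝ, D = |(s ψ φ).re - (sg ψ φ).re| := ⟨_, rfl⟩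
    have hD0 : 0 < D := by rw [hD]; exact abs_pos.2 hne
    obtain ⟨ε₁, hε₁, hε₁D, hε₁κ⟩ : ∃ ε₁ : ℝ, 0 < ε₁ ∧ ε₁ ≤ D / 4 ∧ ε₁ ≤ κ / 8 :=
      ⟨min (D / 4) (κ / 8), by positivity, min_le_left _ _, min_le_right _ _⟩
    obtain ⟨N₀, hN₀⟩ := exists_nat_gt (2 / D)
    obtain ⟨N, e1, e2, e3, e4, e5⟩ := ((hZ.mw ε₁ hε₁).and ((hnear ε₁ hε₁).and (hdiff'.and
      ((pow_exp_small 2 (κ / 2) (by positivity)).and
        (eventually_ge_atTop (max N₀ 2)))))).exists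
    have hN2 : (2 : ℝ) ≤ N := by exact_mod_cast (le_max_right _ _).trans e5
    have hND : 2 / D < N := hN₀.trans_le (by exact_mod_cast (le_max_left _ _).trans e5)
    obtain ⟨a1, a2⟩ := e1 ψ (hψR ψ hψ _ _ hvρ hvτ) φ (hφZ φ hφ _ _ hvρ' hvτ')
    obtain ⟨b1, b2⟩ := e2 ψ (hψR ψ hψ _ _ hvr₁ hvr₁) φ (ball_subset_ball hvr₁ hφ)
    have d1 := e3 ψ hψ φ hφ
    have hs1 := hs ψ hψ φ hφ
    have hk : 0 < ‖kerL ε N ψ φ‖ := norm_pos_iff.2 a1
    have hk0 : 0 < ‖k0 N ψ φ‖ := norm_pos_iff.2 b1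
    have hlow : Real.exp (N * (AA 1 - κ / 2)) ≤ ‖kerL ε N ψ φ‖ := by
      rw [← Real.exp_log hk]
      apply Real.exp_le_exp.2
      have g1 := (abs_le.1 a2).1
      have g2 : ε₁ * N ≤ κ / 8 * N := by gcongr
      have g3 : (N : ℝ) * (AA 1 - κ / 4) ≤ N * (s ψ φ).re := by gcongr
      have g4 : 0 ≤ κ * N := by positivity
      linarith
    have hhalf : N * Real.exp (N * (AA 1 - κ)) ≤ 1 / 2 * ‖kerL ε N ψ φ‖ := by
      have h1 : N * Real.exp (N * (AA 1 - κ)) =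
          (N * Real.exp (-(N * (κ / 2)))) * Real.exp (N * (AA 1 - κ / 2)) := by
        rw [mul_assoc, ← Real.exp_add]
        congr 2
        ring
      have h2 : N * Real.exp (-(N * (κ / 2))) ≤ 1 / 2 := by
        have h3 : (N : ℝ) * (N * Real.exp (-(N * (κ / 2)))) ≤ 1 := by
          calc (N : ℝ) * (N * Real.exp (-(N * (κ / 2)))) =
              (N : ℝ) ^ 2 * Real.exp (-(N * (κ / 2))) := by ring
            _ ≤ 1 := e4
        have h4 : 0 ≤ N * Real.exp (-(N * (κ / 2))) := by positivity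
        nlinarith
      rw [h1]
      exact mul_le_mul h2 hlow (Real.exp_pos _).le (by norm_num)
    have hd := d1.trans hhalf
    have hup : ‖k0 N ψ φ‖ ≤ 2 * ‖kerL ε N ψ φ‖ := by
      have := norm_sub_norm_le (k0 N ψ φ) (kerL ε N ψ φ)
      rw [norm_sub_rev] at this
      linarith
    have hdn : ‖kerL ε N ψ φ‖ ≤ 2 * ‖k0 N ψ φ‖ := by
      have := norm_sub_norm_le (kerL ε N ψ φ) (k0 N ψ φ)
      linarith
    have l1 := Real.log_le_log hk0 hup
    have l2 := Real.log_le_log hk hdn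
    rw [Real.log_mul (by norm_num) hk.ne'] at l1
    rw [Real.log_mul (by norm_num) hk0.ne'] at l2
    have l3 := Real.log_two_lt_d9
    have a3 := abs_le.1 a2
    have b3 := abs_le.1 b2
    have hfin : N * D ≤ 2 * (ε₁ * N) + 1 := by
      have g1 : (N : ℝ) * D = |N * (s ψ φ).re - N * (sg ψ φ).re| := by
        rw [hD, ← mul_sub, abs_mul, abs_of_nonneg (show (0 : ℝ) ≤ N by linarith)]
      rw [g1, abs_le]
      obtain ⟨a4, a5⟩ := a3
      obtain ⟨b4, b5⟩ := b3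
      constructor
      · linarith
      · linarith
    have h7 : 2 < N * D := by
      rwa [div_lt_iff₀ hD0] at hND
    have h8 : ε₁ * N ≤ D / 4 * N := by gcongr
    linarith
  -- the potentials agree
  have heq : ∀ ψ ∈ Rc v v, ∀ φ ∈ ball (((1 : ℝ) : ℂ) * Complex.I) v, s ψ φ = sg ψ φ := by
    have h0 : (0 : ℂ) ∈ Rc v v := by
      constructor <;> simpa using hv
    have hI : ((1 : ℝ) : ℂ) * Complex.I ∈ ball (((1 : ℝ) : ℂ) * Complex.I) v := mem_ball_self hv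
    have hA1 : ∀ φ ∈ ball (((1 : ℝ) : ℂ) * Complex.I) v, ∀ ψ ∈ Rc v v,
        s ψ φ - sg ψ φ = s 0 φ - sg 0 φ := by
      intro φ hφ ψ hψ
      apply const_of_re (f := fun z => s z φ - sg z φ) (isOpen_Rc v v) (convex_Rc v v) _ _ hψ h0
      · apply DifferentiableOn.sub
        · exact hS.san.comp (f := fun z : ℂ => (z, φ)) (by fun_prop)
            (fun z hz => ⟨hψR z hz _ _ hvr hvr, hφZ φ hφ _ _ hvr hvr⟩)
        · exact hP.san.comp (f := fun z : ℂ => (z, φ)) (by fun_prop)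
            (fun z hz => ⟨hψR z hz _ _ hvr₀ hvr₀, ball_subset_ball hvr₀ hφ⟩)
      · intro z hz
        rw [Complex.sub_re]
        exact hre z hz φ hφ
    have hA2 : ∀ φ ∈ ball (((1 : ℝ) : ℂ) * Complex.I) v,
        s 0 φ - sg 0 φ = s 0 (((1 : ℝ) : ℂ) * Complex.I) - sg 0 (((1 : ℝ) : ℂ) * Complex.I) := by
      intro φ hφ
      apply const_of_re (f := fun z => s 0 z - sg 0 z) isOpen_ball (convex_ball _ _) _ _ hφ hI
      · apply DifferentiableOn.sub
        · exact hS.san.comp (f := fun z : ℂ => ((0 : ℂ), z)) (by fun_prop)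
            (fun z hz => ⟨hψR 0 h0 _ _ hvr hvr, hφZ z hz _ _ hvr hvr⟩)
        · exact hP.san.comp (f := fun z : ℂ => ((0 : ℂ), z)) (by fun_prop)
            (fun z hz => ⟨hψR 0 h0 _ _ hvr₀ hvr₀, ball_subset_ball hvr₀ hz⟩)
      · intro z hz
        rw [Complex.sub_re]
        exact hre 0 h0 z hz
    have hbase : s 0 (((1 : ℝ) : ℂ) * Complex.I) - sg 0 (((1 : ℝ) : ℂ) * Complex.I) = 0 := by
      apply Complex.ext
      · rw [Complex.sub_re]
        exact hre 0 h0 _ hI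
      · rw [Complex.sub_im, sg_im hSF, hS.base, Complex.ofReal_im]
        simp
    intro ψ hψ φ hφ
    have := (hA1 φ hφ ψ hψ).trans ((hA2 φ hφ).trans hbase)
    exact sub_eq_zero.1 this
  refine ⟨v, v, A, hv, (ball_subset_ball hvr₁).trans hr₁G, ⟨hv, hv, isOpen_ball, ?_, ?_, ?_⟩⟩
  · intro K
    obtain ⟨C', hC'⟩ := hA.ux K
    refine ⟨C' + 1, ?_⟩
    filter_upwards [hC', hdiff', pow_exp_small (K + 3) (κ / 2) (by positivity),
      eventually_ge_atTop 1] with N h1 h2 h3 h4 x hx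
    have hN1 : (1 : ℝ) ≤ N := by exact_mod_cast h4
    have e1 := h1 x ⟨hψR _ hx.1 _ _ hvρ₂ hvτ₂, hφZ _ hx.2 _ _ hvρ₃ hvτ₃⟩
    have e2 := h2 _ hx.1 _ hx.2
    have e3 := hs _ hx.1 _ hx.2
    have e4 : ‖((Real.sqrt N) ^ 3 : ℝ) * Complex.exp (-(N * sg x.1 x.2)) * k0 N x.1 x.2 -
        kxz ε s N x‖ ≤ 1 / (N : ℝ) ^ K := by
      unfold kxz
      rw [heq _ hx.1 _ hx.2, ← mul_sub, norm_mul, norm_mul, norm_sub_rev, Complex.norm_real,
        Complex.norm_exp, Real.norm_eq_abs, abs_of_nonneg (by positivity)]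
      have f1 : Real.sqrt N ^ 3 ≤ (N : ℝ) ^ 2 := by
        have f2 : Real.sqrt N ≤ N := by
          rw [Real.sqrt_le_left (by linarith)]
          nlinarith
        calc Real.sqrt N ^ 3 = Real.sqrt N ^ 2 * Real.sqrt N := by ring
          _ = N * Real.sqrt N := by rw [Real.sq_sqrt (by linarith)]
          _ ≤ N * N := by gcongr
          _ = (N : ℝ) ^ 2 := by ring
      have f3 : (-((N : ℂ) * sg x.1 x.2)).re ≤ -(N * (AA 1 - κ / 4)) := by
        rw [Complex.neg_re, ← Complex.ofReal_natCast, Complex.re_ofReal_mul,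
          ← heq _ hx.1 _ hx.2]
        nlinarith
      have f4 : 1 / (N : ℝ) ^ K = (N : ℝ) ^ 3 * (1 / (N : ℝ) ^ (K + 3)) := by
        rw [pow_add]
        field_simp
      have f5 : Real.exp (-(N * (κ / 2))) ≤ 1 / (N : ℝ) ^ (K + 3) := by
        rw [le_div_iff₀ (by positivity), mul_comm]
        exact h3
      calc Real.sqrt N ^ 3 * Real.exp (-((N : ℂ) * sg x.1 x.2)).re *
            ‖kerL ε N x.1 x.2 - k0 N x.1 x.2‖
          ≤ (N : ℝ) ^ 2 * Real.exp (-(N * (AA 1 - κ / 4))) * (N * Real.exp (N * (AA 1 - κ))) := by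
            gcongr
        _ = (N : ℝ) ^ 3 * Real.exp (-(N * (3 * κ / 4))) := by
            rw [show (N : ℝ) ^ 2 * Real.exp (-(N * (AA 1 - κ / 4))) *
              (N * Real.exp (N * (AA 1 - κ))) = (N : ℝ) ^ 3 *
              (Real.exp (-(N * (AA 1 - κ / 4))) * Real.exp (N * (AA 1 - κ))) by ring,
              ← Real.exp_add]
            congr 2
            ring
        _ ≤ (N : ℝ) ^ 3 * Real.exp (-(N * (κ / 2))) := by
            apply mul_le_mul_of_nonneg_left _ (by positivity)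
            apply Real.exp_le_exp.2
            have : 0 ≤ (N : ℝ) * κ := by positivity
            linarith
        _ ≤ 1 / (N : ℝ) ^ K := by
            rw [f4]
            gcongr
    calc ‖((Real.sqrt N) ^ 3 : ℝ) * Complex.exp (-(N * sg x.1 x.2)) * k0 N x.1 x.2 -
          ∑ k ∈ range K, A k x / (N : ℂ) ^ k‖
        = ‖(((Real.sqrt N) ^ 3 : ℝ) * Complex.exp (-(N * sg x.1 x.2)) * k0 N x.1 x.2 -
            kxz ε s N x) + (kxz ε s N x - ∑ k ∈ range K, A k x / (N : ℂ) ^ k)‖ := by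
          congr 1
          ring
      _ ≤ 1 / (N : ℝ) ^ K + C' / (N : ℝ) ^ K := (norm_add_le _ _).trans (add_le_add e4 e1)
      _ = (C' + 1) / (N : ℝ) ^ K := by ring
  · intro n p hp
    exact (hA.d1 n p (hφZ p hp _ _ hvρ₃ hvτ₃)).mono fun z hz => hψR z hz _ _ hvρ₂ hvτ₂
  · intro x hx
    exact hA.nz x ⟨hψR _ hx.1 _ _ hvρ₂ hvτ₂, hφZ _ hx.2 _ _ hvρ₃ hvτ₃⟩

/-- job AX3 -/
theorem kxb (hG : S_SGP) (hSF : S_SF) (hN : S_NEAR) : S_KXB :=
  kxb_of hG hSF hN Pool.Agent.TH822.J362.sdz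
    (Pool.Agent.TH563.V.kerv (Pool.Agent.TH563.Z.mwkz Pool.Agent.TH28.ZI.intz
      Pool.Agent.TH822.J362.rrdz) Pool.Agent.TH511.J361.bndz) Pool.Agent.TH563.Z.f_kxcz

end Pool.Agent.N644.AX
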